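import Pool.Agent.Y303.SK.Stm

/-!
Gram-Schmidt lemma (helper302, job SK-GS).
-/

set_option autoImplicit false

open Set Filter Topology MeasureTheory Metric

namespace Pool.Agent.Y302.SK

theorem gs_aux (X : Type) [NormedAddCommGroup X] [InnerProductSpace ℝ X] (φ : ℕ → X)
    (hf : ¬ FiniteDimensional ℝ (Submodule.span ℝ (range φ))) : ∃ w : ℕ × Bool → X, Orthonormal ℝ w ∧
    (∀ j, w j ∈ Submodule.span ℝ (range φ)) ∧ ∀ k, φ k ∈ Submodule.span ℝ (range w) := by
  classical
  have hG : Submodule.span ℝ (range (InnerProductSpace.gramSchmidtNormed ℝ φ))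
      = Submodule.span ℝ (range φ) :=
    (InnerProductSpace.span_gramSchmidtNormed_range (𝕜 := ℝ) φ).trans (InnerProductSpace.span_gramSchmidt ℝ φ)
  obtain ⟨G, hGdef⟩ : ∃ G : ℕ → X, G = InnerProductSpace.gramSchmidtNormed ℝ φ := ⟨_, rfl⟩
  have ho := InnerProductSpace.gramSchmidtNormed_orthonormal' (𝕜 := ℝ) φ
  rw [← hGdef] at ho hG
  have hinf : {i | G i ≠ 0}.Infinite := by
    intro hfin
    apply hf
    rw [← hG]
    have h1 : range G ⊆ insert 0 (G '' {i | G i ≠ 0}) := by
      rintro _ ⟨i, rfl⟩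
      by_cases h : G i = 0
      · left
        exact h
      · right
        exact ⟨i, h, rfl⟩
    exact FiniteDimensional.span_of_finite ℝ (((hfin.image G).insert 0).subset h1)
  have : Infinite {i | G i ≠ 0} := hinf.to_subtype
  have : Denumerable {i | G i ≠ 0} := Denumerable.ofEncodableOfInfinite _
  have : Denumerable (ℕ × Bool) := Denumerable.ofEncodableOfInfinite _
  let e : (ℕ × Bool) ≃ {i | G i ≠ 0} := Denumerable.equiv₂ _ _
  refine ⟨fun j => G (e j), ho.comp e e.injective, fun j => ?_, fun k => ?_⟩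
  · rw [← hG]
    exact Submodule.subset_span ⟨_, rfl⟩
  · have h1 : φ k ∈ Submodule.span ℝ (range G) := by
      rw [hG]
      exact Submodule.subset_span ⟨k, rfl⟩
    refine Submodule.span_le.2 ?_ h1
    rintro _ ⟨i, rfl⟩
    by_cases h : G i = 0
    · rw [h]
      exact Submodule.zero_mem _
    · refine Submodule.subset_span ⟨e.symm ⟨i, h⟩, ?_⟩
      simp

theorem t_GS : Pool.Agent.Y303.SK.S_GS := fun X _ _ φ hf => gs_aux X φ hf

end Pool.Agent.Y302.SK
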