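import Pool.Agent.Y303.SK.Stm

/-!
Explicit parameters (helper302, job SK-PAR).
-/

set_option autoImplicit false
set_option linter.unusedVariables false

open Set Filter Topology MeasureTheory Metric

namespace Pool.Agent.Y302.SK

open Pool.Agent.Y6.N Pool.Agent.Y303.SK

lemma le_of_p5 {x y : ℝ} (hy : 0 ≤ y) (h : x ^ 5 ≤ y ^ 5) : x ≤ y := by
  by_contra hc
  push Not at hc
  have := pow_lt_pow_left₀ hc hy (by norm_num : (5 : ℕ) ≠ 0)
  linarith

lemma nat8 (n : ℕ) : (n + 6) ^ 3 + 1000 ≤ 1216 * 8 ^ n := by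
  induction n with
  | zero => norm_num
  | succ n ih =>
    have h1 : (n + 1 + 6) ^ 3 + 1000 ≤ 8 * ((n + 6) ^ 3 + 1000) := by
      have h2 := Nat.zero_le (n ^ 2)
      have h3 := Nat.zero_le (n ^ 3)
      nlinarith
    calc (n + 1 + 6) ^ 3 + 1000 ≤ 8 * ((n + 6) ^ 3 + 1000) := h1
      _ ≤ 8 * (1216 * 8 ^ n) := Nat.mul_le_mul_left 8 ih
      _ = 1216 * 8 ^ (n + 1) := by rw [pow_succ]; ring

lemma natc (n : ℕ) : 9 * n ^ 2 + 34 * n + 28 ≤ n ^ 3 + 1000 := by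
  have h : (0 : ℤ) ≤ ((n : ℤ) - 8) ^ 2 * (n + 7) := by positivity
  have h2 : (9 * n ^ 2 + 34 * n + 28 : ℤ) ≤ n ^ 3 + 1000 := by nlinarith [Int.natCast_nonneg n]
  exact_mod_cast h2

lemma natp (n : ℕ) : (n + 2) ^ 3 + 1000 ≤ 2 * ((n + 1) ^ 3 + 1000) := by
  have h2 : ((n + 2) ^ 3 + 1000 : ℤ) ≤ 2 * ((n + 1) ^ 3 + 1000) := by
    have h : (0 : ℤ) ≤ ((n : ℤ) - 2) ^ 2 * (n + 4) := by positivity
    nlinarith [Int.natCast_nonneg n]
  exact_mod_cast h2

/-- explicit parameters -/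
theorem t_PAR : Pool.Agent.Y303.SK.S_PAR := by
  intro a κ h q' G δ ha hκ hh hq hG hδ
  obtain ⟨q0, hq0, hq01, hq0q⟩ : ∃ q0 : ℝ, 0 < q0 ∧ q0 ≤ 1 ∧ q0 ≤ q' :=
    ⟨min q' 1, lt_min hq one_pos, min_le_right _ _, min_le_left _ _⟩
  obtain ⟨d0, hd0, hd01, hd0d⟩ : ∃ d0 : ℝ, 0 < d0 ∧ d0 ≤ 1 ∧ d0 ≤ δ :=
    ⟨min δ 1, lt_min hδ one_pos, min_le_right _ _, min_le_left _ _⟩
  obtain ⟨K, hK, hKdef⟩ : ∃ K : ℝ, 0 < K ∧ K = 2 / (κ * a) := ⟨_, by positivity, rfl⟩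
  obtain ⟨D, hD, hDdef⟩ : ∃ D : ℝ, 0 < D ∧ D = (10 ^ 6 * G) ^ 5 * K ^ 4 := ⟨_, by positivity, rfl⟩
  obtain ⟨Y, hYdef⟩ : ∃ Y : ℝ, Y = 10 ^ 15 + 1000 * (κ / h + 1) + 100 * (κ / h) + 2 / q0 ^ 5
    + κ * a / d0 ^ 5 + κ * a + D := ⟨_, rfl⟩
  have c1 : 0 < κ / h := by positivity
  have c2 : 0 < 2 / q0 ^ 5 := by positivity
  have c3 : 0 < κ * a / d0 ^ 5 := by positivity
  have c4 : 0 < κ * a := by positivity
  have hY15 : 10 ^ 15 ≤ Y := by rw [hYdef]; linarith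
  have hY0 : 0 < Y := by linarith
  have hY1 : 1 ≤ Y := by linarith
  obtain ⟨Λ, hΛ⟩ : ∃ Λ : ℝ, Λ = Y ^ 2 := ⟨_, rfl⟩
  have hΛY : Y ≤ Λ := by rw [hΛ]; nlinarith
  have hΛ30 : 10 ^ 30 ≤ Λ := by
    rw [hΛ]
    calc (10 : ℝ) ^ 30 = (10 ^ 15) ^ 2 := by norm_num
      _ ≤ Y ^ 2 := pow_le_pow_left₀ (by norm_num) hY15 2
  have hΛ1 : 1 ≤ Λ := by linarith
  have hΛ0 : 0 < Λ := by linarith
  have b1 : 1000 * (κ / h + 1) ≤ Λ := by refine le_trans ?_ hΛY; rw [hYdef]; linarith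
  have b2 : 100 * (κ / h) ≤ Λ := by refine le_trans ?_ hΛY; rw [hYdef]; linarith
  have b3 : 2 / q0 ^ 5 ≤ Λ := by refine le_trans ?_ hΛY; rw [hYdef]; linarith
  have b4 : κ * a / d0 ^ 5 ≤ Λ := by refine le_trans ?_ hΛY; rw [hYdef]; linarith
  have b5 : κ * a ≤ Λ := by refine le_trans ?_ hΛY; rw [hYdef]; linarith
  have b6 : D ≤ Λ := by refine le_trans ?_ hΛY; rw [hYdef]; linarith
  -- the sequences
  obtain ⟨L, hL⟩ : ∃ L : ℕ → ℝ, ∀ n, L n = Λ ^ ((n + 1) ^ 3 + 1000) := ⟨_, fun _ => rfl⟩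
  obtain ⟨lm, hlm⟩ : ∃ lm : ℕ → ℝ, ∀ n, lm n = Λ ^ (3 * n ^ 2 + 3 * n + 1) := ⟨_, fun _ => rfl⟩
  have L0 : ∀ n, 0 < L n := fun n => by rw [hL]; positivity
  have lm0 : ∀ n, 0 < lm n := fun n => by rw [hlm]; positivity
  have lmΛ : ∀ n, Λ ≤ lm n := fun n => by
    rw [hlm]
    calc Λ = Λ ^ 1 := (pow_one Λ).symm
      _ ≤ _ := pow_le_pow_right₀ hΛ1 (by omega)
  have lmL : ∀ n, lm (n + 1) * L n = L (n + 1) := fun n => by
    rw [hL, hL, hlm, ← pow_add]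
    exact congrArg (fun k : ℕ => Λ ^ k) (by ring)
  obtain ⟨E, hE⟩ : ∃ E : ℕ → ℝ, ∀ n, E n = Real.exp (-(lm n / 50)) * κ / (h * lm (n + 1)) :=
    ⟨_, fun _ => rfl⟩
  have E0 : ∀ n, 0 < E n := fun n => by
    have := lm0 (n + 1)
    rw [hE]
    positivity
  have ex1 : ∀ n, Real.exp (-(lm n / 50)) ≤ 1 := fun n => by
    rw [Real.exp_le_one_iff]
    have := lm0 n
    linarith
  have Elm : ∀ n, E n * lm (n + 1) = Real.exp (-(lm n / 50)) * (κ / h) := fun n => by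
    have := (lm0 (n + 1)).ne'
    rw [hE]
    field_simp
  have E1 : ∀ n, E n * (1 + h / κ) ≤ 1 / 1000 := fun n => by
    have h1 : E n * lm (n + 1) ≤ κ / h := by
      rw [Elm]
      exact mul_le_of_le_one_left c1.le (ex1 n)
    have h2 : E n * Λ ≤ κ / h := le_trans (mul_le_mul_of_nonneg_left (lmΛ _) (E0 n).le) h1
    have h3 : E n * (1000 * (κ / h + 1)) ≤ κ / h :=
      le_trans (mul_le_mul_of_nonneg_left b1 (E0 n).le) h2
    have h4 : E n * (1 + h / κ) = E n * (1000 * (κ / h + 1)) / (κ / h) / 1000 := by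
      field_simp
    have h5 : E n * (1000 * (κ / h + 1)) / (κ / h) ≤ 1 := by
      rw [div_le_one c1]
      exact h3
    rw [h4]
    linarith
  have E2 : ∀ n, E n ≤ 1 / 1000 := fun n => by
    refine le_trans ?_ (E1 n)
    have : 0 < h / κ := by positivity
    exact le_mul_of_one_le_right (E0 n).le (by linarith)
  obtain ⟨ε, hε⟩ : ∃ ε : ℕ → ℝ, ∀ n, ε n = √(E n) := ⟨_, fun _ => rfl⟩
  have ε0 : ∀ n, 0 < ε n := fun n => by rw [hε]; exact Real.sqrt_pos.2 (E0 n)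
  have ε2 : ∀ n, ε n ^ 2 = E n := fun n => by rw [hε]; exact Real.sq_sqrt (E0 n).le
  obtain ⟨α, hα⟩ : ∃ α : ℕ → ℝ, ∀ n, α n = √(1 - E n) := ⟨_, fun _ => rfl⟩
  have α2 : ∀ n, α n ^ 2 = 1 - E n := fun n => by
    rw [hα]
    exact Real.sq_sqrt (by linarith [E2 n])
  have αlo : ∀ n, 1 / 2 ≤ α n := fun n => by
    rw [hα]
    apply Real.le_sqrt_of_sq_le
    linarith [E2 n]
  have αhi : ∀ n, α n ≤ 1 := fun n => by
    rw [hα, Real.sqrt_le_iff]
    exact ⟨by norm_num, by linarith [E0 n]⟩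
  have α0 : ∀ n, 0 < α n := fun n => by linarith [αlo n]
  obtain ⟨s, hs⟩ : ∃ s : ℕ → ℝ, ∀ n, s n = κ * a * α n / L n := ⟨_, fun _ => rfl⟩
  have s0 : ∀ n, 0 < s n := fun n => by
    have := α0 n
    have := L0 n
    rw [hs]
    positivity
  obtain ⟨t, ht⟩ : ∃ t : ℕ → ℝ, ∀ n, t n = s n ^ (1 / 5 : ℝ) := ⟨_, fun _ => rfl⟩
  have t0 : ∀ n, 0 < t n := fun n => by rw [ht]; exact Real.rpow_pos_of_pos (s0 n) _
  have t5 : ∀ n, t n ^ 5 = s n := fun n => by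
    rw [ht, ← Real.rpow_natCast, ← Real.rpow_mul (s0 n).le]
    norm_num
  have sL : ∀ n, s n * L n = κ * a * α n := fun n => by
    have := (L0 n).ne'
    rw [hs]
    field_simp
  have s1 : ∀ n, s (n + 1) * lm (n + 1) ≤ 2 * s n := fun n => by
    have h1 : s (n + 1) * lm (n + 1) * L n = κ * a * α (n + 1) := by
      rw [mul_assoc, lmL, sL]
    have h2 : 2 * s n * L n = 2 * (κ * a * α n) := by rw [mul_assoc, sL]
    have h3 : s (n + 1) * lm (n + 1) * L n ≤ 2 * s n * L n := by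
      rw [h1, h2]
      have h5 : α (n + 1) ≤ 2 * α n := by linarith [αhi (n + 1), αlo n]
      have h6 := mul_le_mul_of_nonneg_left h5 c4.le
      linarith
    exact le_of_mul_le_mul_right h3 (L0 n)
  have s2 : ∀ n, s n ≤ 2 * lm (n + 1) * s (n + 1) := fun n => by
    have h1 : 2 * lm (n + 1) * s (n + 1) * L n = 2 * (κ * a * α (n + 1)) := by
      rw [← sL (n + 1), ← lmL n]
      ring
    have h3 : s n * L n ≤ 2 * lm (n + 1) * s (n + 1) * L n := by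
      rw [h1, sL]
      have h5 : α n ≤ 2 * α (n + 1) := by linarith [αhi n, αlo (n + 1)]
      have h6 := mul_le_mul_of_nonneg_left h5 c4.le
      linarith
    exact le_of_mul_le_mul_right h3 (L0 n)
  have tstep : ∀ n, t (n + 1) ≤ q0 * t n := fun n => by
    apply le_of_p5 (mul_nonneg hq0.le (t0 n).le)
    rw [mul_pow, t5, t5]
    have h1 := s1 n
    have h2 : s (n + 1) * (2 / q0 ^ 5) ≤ 2 * s n :=
      le_trans (mul_le_mul_of_nonneg_left (b3.trans (lmΛ _)) (s0 _).le) h1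
    have h3 : s (n + 1) * (2 / q0 ^ 5) * q0 ^ 5 = 2 * s (n + 1) := by
      field_simp
    have h4 := mul_le_mul_of_nonneg_right h2 (by positivity : 0 ≤ q0 ^ 5)
    rw [h3] at h4
    linarith
  have tmono : ∀ n, t (n + 1) ≤ t n := fun n => by
    exact (tstep n).trans (mul_le_of_le_one_left (t0 n).le hq01)
  have tsm : ∀ n, t n ≤ (1 / 10 ^ 6) ^ n := fun n => by
    apply le_of_p5 (by positivity)
    rw [t5]
    have h1 : s n * L n ≤ Λ := by
      rw [sL]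
      calc κ * a * α n ≤ κ * a * 1 := mul_le_mul_of_nonneg_left (αhi n) c4.le
        _ ≤ Λ := by linarith
    have h2 : Λ ^ n * Λ ≤ L n := by
      rw [hL]
      calc Λ ^ n * Λ = Λ ^ (n + 1) := (pow_succ Λ n).symm
        _ ≤ Λ ^ ((n + 1) ^ 3 + 1000) := pow_le_pow_right₀ hΛ1
            (le_trans (Nat.le_self_pow (by norm_num) (n + 1)) (Nat.le_add_right _ _))
    have h3 : s n * Λ ^ n ≤ 1 := by
      have h4 : s n * (Λ ^ n * Λ) ≤ Λ :=
        le_trans (mul_le_mul_of_nonneg_left h2 (s0 n).le) h1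
      have h5 : s n * Λ ^ n * Λ ≤ 1 * Λ := by linarith
      exact le_of_mul_le_mul_right h5 hΛ0
    have h6 : ((10 : ℝ) ^ 30) ^ n ≤ Λ ^ n := pow_le_pow_left₀ (by norm_num) hΛ30 n
    have h7 : s n * (10 ^ 30) ^ n ≤ 1 := le_trans (mul_le_mul_of_nonneg_left h6 (s0 n).le) h3
    have h8 : (((1 : ℝ) / 10 ^ 6) ^ n) ^ 5 = 1 / (10 ^ 30) ^ n := by
      rw [← pow_mul, mul_comm n 5, pow_mul, div_pow, one_pow, one_div_pow]
      norm_num
    rw [h8, le_div_iff₀ (by positivity)]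
    exact h7
  -- the bound for the viscous terms
  have key : ∀ (n : ℕ) (x Z : ℝ), 0 ≤ x → 0 ≤ Z → x * (t n ^ 2) ^ 2 ≤ G →
      D * L n ^ 4 ≤ Z ^ 5 → 10 ^ 6 * x ≤ Z := by
    intro n x Z hx hZ hxt hDZ
    apply le_of_p5 hZ
    refine le_trans ?_ hDZ
    have h1 : 1 ≤ K * L n * t n ^ 5 := by
      have h2 : K * L n * t n ^ 5 = K * (κ * a * α n) := by rw [t5, ← sL]; ring
      have h3 : K * (κ * a * α n) = 2 * α n := by
        rw [hKdef]
        field_simp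
      rw [h2, h3]
      linarith [αlo n]
    have h4 : (1 : ℝ) ≤ (K * L n * t n ^ 5) ^ 4 := one_le_pow₀ h1
    have h5 : (10 ^ 6 * x) ^ 5 ≤ (10 ^ 6 * x) ^ 5 * (K * L n * t n ^ 5) ^ 4 :=
      le_mul_of_one_le_right (by positivity) h4
    refine h5.trans ?_
    have h6 : (10 ^ 6 * x) ^ 5 * (K * L n * t n ^ 5) ^ 4
        = (10 ^ 6 * (x * (t n ^ 2) ^ 2)) ^ 5 * K ^ 4 * L n ^ 4 := by ring
    have h7 : (10 ^ 6 * (x * (t n ^ 2) ^ 2)) ^ 5 ≤ (10 ^ 6 * G) ^ 5 :=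
      pow_le_pow_left₀ (by positivity) (by linarith) 5
    rw [h6, hDdef]
    have := L0 n
    gcongr
  refine ⟨fun n => t n ^ 2, α, ε, lm, L, ?_⟩
  have hsq : ∀ n, √(t n ^ 2) = t n := fun n => Real.sqrt_sq (t0 n).le
  refine ⟨fun n => pow_pos (t0 n) 2, ?_, ?_, α0, ε0, fun n => by rw [α2, ε2]; ring, ?_, ?_, ?_, ?_, ?_, ?_⟩
  · intro n
    show t (n + 1) ^ 2 ≤ q' * t n ^ 2
    have h1 : t (n + 1) ^ 2 ≤ (q0 * t n) ^ 2 := pow_le_pow_left₀ (t0 _).le (tstep n) 2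
    refine h1.trans ?_
    rw [mul_pow]
    apply mul_le_mul_of_nonneg_right _ (sq_nonneg _)
    have h5 : q0 * q0 ≤ q0 * 1 := mul_le_mul_of_nonneg_left hq01 hq0.le
    rw [sq]
    linarith
  · show t 0 ^ 2 ≤ δ
    have h1 : t 0 ≤ d0 := by
      apply le_of_p5 hd0.le
      rw [t5]
      have h2 : s 0 * L 0 ≤ κ * a := by
        rw [sL]
        exact mul_le_of_le_one_right c4.le (αhi 0)
      have h3 : Λ ≤ L 0 := by
        rw [hL]
        calc Λ = Λ ^ 1 := (pow_one Λ).symm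
          _ ≤ _ := pow_le_pow_right₀ hΛ1 (by norm_num)
      have h4 : s 0 * (κ * a / d0 ^ 5) ≤ κ * a :=
        le_trans (mul_le_mul_of_nonneg_left (b4.trans h3) (s0 _).le) h2
      have h5 : s 0 * (κ * a / d0 ^ 5) = s 0 / d0 ^ 5 * (κ * a) := by ring
      rw [h5] at h4
      have h6 : s 0 / d0 ^ 5 * (κ * a) ≤ 1 * (κ * a) := by linarith
      have h7 := le_of_mul_le_mul_right h6 c4
      rwa [div_le_one (by positivity)] at h7
    have h2 := t0 0
    have h3 : t 0 * t 0 ≤ d0 * 1 := mul_le_mul h1 (h1.trans hd01) h2.le hd0.le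
    rw [sq]
    linarith
  · intro n
    show L n * ((t n ^ 2) ^ 2 * √(t n ^ 2)) = κ * a * α n
    rw [hsq, ← sL n, ← t5 n]
    ring
  · intro n
    show ε n ^ 2 * (t n ^ 2) ^ 2 ≤ (t (n + 1) ^ 2) ^ 2
    rw [ε2]
    have h1 : t n ^ 4 ≤ 2 * lm (n + 1) * t (n + 1) ^ 4 := by
      have h2 := s2 n
      rw [← t5, ← t5] at h2
      have h3 : t n ^ 4 * t n ≤ 2 * lm (n + 1) * t (n + 1) ^ 4 * t n := by
        calc t n ^ 4 * t n = t n ^ 5 := by ring
          _ ≤ 2 * lm (n + 1) * t (n + 1) ^ 5 := h2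
          _ = 2 * lm (n + 1) * t (n + 1) ^ 4 * t (n + 1) := by ring
          _ ≤ _ := mul_le_mul_of_nonneg_left (tmono n) (by
            have := lm0 (n + 1)
            positivity)
      exact le_of_mul_le_mul_right h3 (t0 n)
    have h2 : E n * (2 * lm (n + 1)) ≤ 1 := by
      have h3 : E n * (2 * lm (n + 1)) = 2 * (Real.exp (-(lm n / 50)) * (κ / h)) := by
        rw [← Elm]
        ring
      rw [h3]
      have h4 : Real.exp (-(lm n / 50)) * (lm n / 50) ≤ 1 := by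
        rw [Real.exp_neg]
        have h5 : lm n / 50 ≤ Real.exp (lm n / 50) := by
          linarith [Real.add_one_le_exp (lm n / 50)]
        rw [inv_mul_le_iff₀ (Real.exp_pos _), mul_one]
        exact h5
      have h5 : 2 * (κ / h) ≤ lm n / 50 := by
        have := b2.trans (lmΛ n)
        linarith
      have h6 := mul_le_mul_of_nonneg_left h5 (Real.exp_pos (-(lm n / 50))).le
      linarith
    calc E n * (t n ^ 2) ^ 2 = E n * t n ^ 4 := by ring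
      _ ≤ E n * (2 * lm (n + 1) * t (n + 1) ^ 4) := mul_le_mul_of_nonneg_left h1 (E0 n).le
      _ = (E n * (2 * lm (n + 1))) * t (n + 1) ^ 4 := by ring
      _ ≤ 1 * t (n + 1) ^ 4 := mul_le_mul_of_nonneg_right h2 (by
          have := t0 (n + 1)
          positivity)
      _ = (t (n + 1) ^ 2) ^ 2 := by ring
  · intro ℓ hℓ
    have hC : ∀ n, ε n ^ 2 * (h / κ) * (L (n + 1) / L n) = Real.exp (-(lm n / 50)) := by
      intro n
      have h1 : L (n + 1) / L n = lm (n + 1) := by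
        rw [← lmL n]
        have := (L0 n).ne'
        field_simp
      rw [h1, ε2]
      have h2 : E n * (h / κ) * lm (n + 1) = (E n * lm (n + 1)) * (h / κ) := by ring
      rw [h2, Elm]
      field_simp
    refine ⟨?_, lmL, fun n => hΛ30.trans (lmΛ n), ?_, fun _ => le_rfl, fun _ => le_rfl, ?_, ?_, ?_, ?_,
      ?_, ?_, fun n => (hℓ n).1, ?_, ?_⟩
    · rw [hL]
      exact one_le_pow₀ hΛ1
    · intro n
      rw [hlm, hlm]
      have h1 : Λ ^ (3 * (n + 1) ^ 2 + 3 * (n + 1) + 1)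
          = Λ ^ (6 * n + 6) * Λ ^ (3 * n ^ 2 + 3 * n + 1) := by
        rw [← pow_add Λ (6 * n + 6) (3 * n ^ 2 + 3 * n + 1)]
        exact congrArg (fun k : ℕ => Λ ^ k) (by ring)
      rw [h1]
      apply mul_le_mul_of_nonneg_right _ (by positivity)
      have h2 : (100 : ℝ) * ((n : ℝ) + 1) ≤ 100 ^ (n + 1) := by
        have h3 : n + 1 ≤ 100 ^ n := by
          have := (Nat.lt_pow_self (by norm_num : 1 < 100) : n < 100 ^ n)
          omega
        have h4 : ((n + 1 : ℕ) : ℝ) ≤ ((100 ^ n : ℕ) : ℝ) := by exact_mod_cast h3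
        push_cast at h4
        rw [pow_succ]
        linarith
      refine h2.trans ?_
      have h5 : (100 : ℝ) ^ (n + 1) ≤ Λ ^ (n + 1) := pow_le_pow_left₀ (by norm_num) (by linarith) _
      exact h5.trans (pow_le_pow_right₀ hΛ1 (by omega))
    · intro n
      show (1 : ℝ) ≤ L n ^ 4
      rw [hL]
      exact one_le_pow₀ (one_le_pow₀ hΛ1)
    · intro n
      show (L (n + 5) * 1) ^ 10 ≤ Real.exp (lm n / 10 ^ 6)
      rw [mul_one, hL, ← pow_mul]
      obtain ⟨N, hN⟩ : ∃ N : ℕ, N = ((n + 5 + 1) ^ 3 + 1000) * 10 := ⟨_, rfl⟩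
      rw [← hN]
      have h1 : Λ ^ N = Real.exp (N * Real.log Λ) := by
        rw [Real.exp_nat_mul, Real.exp_log hΛ0]
      rw [h1]
      apply Real.exp_le_exp.2
      have h2 : Real.log Λ ≤ 2 * Y := by
        rw [hΛ, Real.log_pow]
        have := Real.log_le_sub_one_of_pos hY0
        push_cast
        linarith
      have h3 : (N : ℝ) ≤ 12160 * 8 ^ n := by
        have h4 : N ≤ 12160 * 8 ^ n := by
          have h7 := nat8 n
          have h8 : (n + 5 + 1) ^ 3 = (n + 6) ^ 3 := rfl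
          rw [hN, h8]
          linarith
        exact_mod_cast h4
      have h5 : (8 : ℝ) ^ n ≤ Λ ^ (3 * n ^ 2 + 3 * n) :=
        calc (8 : ℝ) ^ n ≤ Λ ^ n := pow_le_pow_left₀ (by norm_num) (by linarith) _
          _ ≤ _ := pow_le_pow_right₀ hΛ1 (by nlinarith [Nat.zero_le (n ^ 2)])
      have h6 : lm n = Λ ^ (3 * n ^ 2 + 3 * n) * Y * Y := by
        rw [hlm, pow_succ, hΛ]
        ring
      have h7 : (0 : ℝ) ≤ N := Nat.cast_nonneg N
      have h8 : (0 : ℝ) < 8 ^ n := by positivity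
      calc (N : ℝ) * Real.log Λ ≤ N * (2 * Y) := mul_le_mul_of_nonneg_left h2 h7
        _ ≤ 12160 * 8 ^ n * (2 * Y) := mul_le_mul_of_nonneg_right h3 (by positivity)
        _ = 8 ^ n * (24320 * Y) := by ring
        _ ≤ Λ ^ (3 * n ^ 2 + 3 * n) * (24320 * Y) := mul_le_mul_of_nonneg_right h5 (by positivity)
        _ ≤ Λ ^ (3 * n ^ 2 + 3 * n) * (Y * Y / 10 ^ 6) := by
            apply mul_le_mul_of_nonneg_left _ (by positivity)
            have h9 : 24320 * 10 ^ 6 ≤ Y := by linarith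
            have h10 := mul_le_mul_of_nonneg_right h9 hY0.le
            linarith
        _ = lm n / 10 ^ 6 := by rw [h6]; ring
    · intro n
      show Real.exp (-(201 / 10000 * lm n)) ≤ ε n ^ 2 * (h / κ) * (L (n + 1) / L n)
      rw [hC]
      apply Real.exp_le_exp.2
      linarith [lm0 n]
    · intro n
      show ε n ^ 2 * (h / κ) * (L (n + 1) / L n) ≤ Real.exp (-(199 / 10000 * lm n))
      rw [hC]
      apply Real.exp_le_exp.2
      linarith [lm0 n]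
    · intro i n _
      show 999 / 1000 ≤ α n ^ 2 - ε n ^ 2 * (h / κ)
      rw [α2, ε2]
      linarith [E1 n]
    · intro i n _
      show α n ^ 2 - ε n ^ 2 * (h / κ) ≤ 1001 / 1000
      rw [α2, ε2]
      have h1 := E0 n
      have h2 : 0 < E n * (h / κ) := by positivity
      linarith
    · -- ℓ 0
      have h1 : 10 ^ 6 * ℓ 0 ≤ Λ ^ 1000 := by
        apply key 0 (ℓ 0) _ (hℓ 0).1 (by positivity) (hℓ 0).2
        rw [hL, ← pow_mul, ← pow_mul]
        calc D * Λ ^ (((0 + 1) ^ 3 + 1000) * 4) ≤ Λ * Λ ^ (((0 + 1) ^ 3 + 1000) * 4) :=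
              mul_le_mul_of_nonneg_right b6 (by positivity)
          _ = Λ ^ (1 + ((0 + 1) ^ 3 + 1000) * 4) := by rw [pow_add, pow_one]
          _ ≤ Λ ^ (1000 * 5) := pow_le_pow_right₀ hΛ1 (by norm_num)
      have h2 : lm 0 = Λ := by
        rw [hlm]
        norm_num
      rw [h2, hL]
      calc 10 ^ 6 * (ℓ 0 * Λ) = 10 ^ 6 * ℓ 0 * Λ := by ring
        _ ≤ Λ ^ 1000 * Λ := mul_le_mul_of_nonneg_right h1 hΛ0.le
        _ = Λ ^ 1001 := by rw [← pow_succ]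
        _ = Λ ^ ((0 + 1) ^ 3 + 1000) := by norm_num
    · intro n
      have hLn := L0 n
      apply key (n + 1) (ℓ (n + 1)) _ (hℓ _).1 (by positivity) (hℓ _).2
      have h1 : (1 : ℝ) ≤ Λ * (9 / 1000) ^ 5 := by
        have : (10 ^ 30 : ℝ) * (9 / 1000) ^ 5 ≤ Λ * (9 / 1000) ^ 5 :=
          mul_le_mul_of_nonneg_right hΛ30 (by positivity)
        refine le_trans ?_ this
        norm_num
      have h2 : (1 : ℝ) ≤ (Λ * (9 / 1000) ^ 5) ^ n := one_le_pow₀ h1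
      have h3 : L (n + 1) ^ 4 * Λ ^ (n + 1) ≤ L n ^ 5 := by
        rw [hL, hL, ← pow_mul, ← pow_mul, ← pow_add]
        have h9 := natc n
        have h10 : ((n + 1 + 1) ^ 3 + 1000) * 4 + (n + 1) ≤ ((n + 1) ^ 3 + 1000) * 5 := by
          have h11 : ((n + 1 + 1) ^ 3 + 1000) * 4 + (n + 1) = 4 * n ^ 3 + 24 * n ^ 2 + 49 * n + 4033 := by
            ring
          have h12 : ((n + 1) ^ 3 + 1000) * 5 = 5 * n ^ 3 + 15 * n ^ 2 + 15 * n + 5005 := by ring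
          rw [h11, h12]
          linarith
        exact pow_le_pow_right₀ hΛ1 h10
      have hL1 := L0 (n + 1)
      calc D * L (n + 1) ^ 4 ≤ Λ * L (n + 1) ^ 4 := mul_le_mul_of_nonneg_right b6 (by positivity)
        _ ≤ Λ * L (n + 1) ^ 4 * (Λ * (9 / 1000) ^ 5) ^ n :=
            le_mul_of_one_le_right (by positivity) h2
        _ = (L (n + 1) ^ 4 * Λ ^ (n + 1)) * ((9 / 1000) ^ n) ^ 5 := by
            rw [mul_pow, pow_succ, ← pow_mul, ← pow_mul, mul_comm 5 n]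
            ring
        _ ≤ L n ^ 5 * ((9 / 1000) ^ n) ^ 5 := mul_le_mul_of_nonneg_right h3 (by positivity)
        _ = (L n * (9 / 1000) ^ n) ^ 5 := by rw [mul_pow]
  · intro n
    rw [hL, hL, ← pow_mul]
    have h1 : (n + 1 + 1) ^ 3 + 1000 ≤ ((n + 1) ^ 3 + 1000) * 2 := by
      have h2 := natp n
      have h3 : (n + 1 + 1) ^ 3 = (n + 2) ^ 3 := rfl
      rw [h3]
      linarith
    exact pow_le_pow_right₀ hΛ1 h1
  · intro M
    obtain ⟨n, hn⟩ := exists_pow_lt_of_lt_one (by positivity : (0 : ℝ) < 1 / (|M| + 1))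
      (by norm_num : (1 / 2 : ℝ) < 1)
    refine ⟨n, ?_⟩
    show M * (t n ^ 2 * √(t n ^ 2)) < (8 / 1000) ^ n
    rw [hsq]
    have h1 : t n ^ 2 * t n ≤ ((1 / 2) * (8 / 1000)) ^ n := by
      calc t n ^ 2 * t n = t n ^ 3 := by ring
        _ ≤ ((1 / 10 ^ 6) ^ n) ^ 3 := pow_le_pow_left₀ (t0 n).le (tsm n) 3
        _ = ((1 / 10 ^ 6) ^ 3) ^ n := by rw [← pow_mul, ← pow_mul, mul_comm]
        _ ≤ ((1 / 2) * (8 / 1000)) ^ n := pow_le_pow_left₀ (by positivity) (by norm_num) n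
    rw [mul_pow] at h1
    rw [lt_div_iff₀ (by positivity)] at hn
    have h2 : 0 ≤ t n ^ 2 * t n := by
      have := t0 n
      positivity
    have h8 : (0 : ℝ) < (8 / 1000) ^ n := by positivity
    calc M * (t n ^ 2 * t n) ≤ (|M| + 1) * (t n ^ 2 * t n) :=
          mul_le_mul_of_nonneg_right (by linarith [le_abs_self M]) h2
      _ ≤ (|M| + 1) * ((1 / 2) ^ n * (8 / 1000) ^ n) := mul_le_mul_of_nonneg_left h1 (by positivity)
      _ = ((1 / 2) ^ n * (|M| + 1)) * (8 / 1000) ^ n := by ring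
      _ < 1 * (8 / 1000) ^ n := mul_lt_mul_of_pos_right hn h8
      _ = (8 / 1000) ^ n := one_mul _
  · have h1 : Tendsto (fun n : ℕ => (2 : ℝ) ^ n) atTop atTop :=
      tendsto_pow_atTop_atTop_of_one_lt (by norm_num)
    refine tendsto_atTop_mono (fun n => ?_) h1
    show (2 : ℝ) ^ n ≤ (2 ^ n * (t n ^ 2) ^ 2)⁻¹
    have h2 := t0 n
    rw [le_inv_comm₀ (by positivity) (by positivity)]
    have h3 : (t n ^ 2) ^ 2 ≤ (1 / 4) ^ n := by
      calc (t n ^ 2) ^ 2 = t n ^ 4 := by ring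
        _ ≤ ((1 / 10 ^ 6) ^ n) ^ 4 := pow_le_pow_left₀ (t0 n).le (tsm n) 4
        _ = ((1 / 10 ^ 6) ^ 4) ^ n := by rw [← pow_mul, ← pow_mul, mul_comm]
        _ ≤ (1 / 4) ^ n := pow_le_pow_left₀ (by positivity) (by norm_num) n
    calc 2 ^ n * (t n ^ 2) ^ 2 ≤ 2 ^ n * (1 / 4) ^ n :=
          mul_le_mul_of_nonneg_left h3 (by positivity)
      _ = (1 / 2) ^ n := by rw [← mul_pow]; norm_num
      _ = (2 ^ n)⁻¹ := by rw [one_div, inv_pow]

end Pool.Agent.Y302.SK
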